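import Mathlib

/-! MP_4a71d8_al: a right LCM monoid whose core irreducible elements are not closed under
right least common multiples. -/

namespace Pool.Agent.Results.MP_4a71d8_al.NotClosed

/-- The principal right ideal `s S`. -/
def rI {S : Type*} [Monoid S] (s : S) : Set S := {x | ∃ y, x = s * y}

/-- The right LCM property (with left cancellativity). -/
def IsRightLCM (S : Type*) [Monoid S] : Prop :=
  (∀ a b c : S, a * b = a * c → b = c) ∧
    ∀ s t : S, rI s ∩ rI t = ∅ ∨ ∃ r : S, rI s ∩ rI t = rI r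

/-- The core. -/
def core (S : Type*) [Monoid S] : Set S := {a | ∀ s : S, (rI a ∩ rI s).Nonempty}

/-- Core irreducible elements. -/
def CoreIrred {S : Type*} [Monoid S] (s : S) : Prop :=
  s ∉ core S ∧ ∀ t a : S, a ∈ core S → s = t * a → IsUnit a

/-- elements `a^n w` with `w` a word in three letters -/
@[ext] structure M where
  n : ℕ
  w : List (Fin 3)

def f (i : Fin 3) : Fin 3 := if i = 2 then 2 else 0

theorem ff : ∀ i, f (f i) = f i := by decide

theorem fit (m : ℕ) : f^[m+1] = f := by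
  induction m with
  | zero => rfl
  | succ m ih =>
    rw [Function.iterate_succ, ih]
    funext i
    exact ff i

def mulM (a b : M) : M := ⟨a.n + b.n, a.w.map (f^[b.n]) ++ b.w⟩

instance : Monoid M where
  mul := mulM
  one := ⟨0, []⟩
  one_mul a := by
    show mulM ⟨0, []⟩ a = a
    simp [mulM]
  mul_one a := by
    show mulM a ⟨0, []⟩ = a
    simp [mulM]
  mul_assoc a b c := by
    show mulM (mulM a b) c = mulM a (mulM b c)
    simp only [mulM, List.map_append, List.map_map, List.append_assoc, add_assoc, M.mk.injEq,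
      true_and]
    rw [add_comm b.n c.n, Function.iterate_add]

theorem mul_n (a b : M) : (a * b).n = a.n + b.n := rfl
theorem mul_w (a b : M) : (a * b).w = a.w.map (f^[b.n]) ++ b.w := rfl

theorem mem_rI (s x : M) : x ∈ rI s ↔ s.n ≤ x.n ∧ s.w.map (f^[x.n - s.n]) <+: x.w := by
  constructor
  · rintro ⟨y, rfl⟩
    rw [mul_n, mul_w]
    refine ⟨by omega, ?_⟩
    rw [Nat.add_sub_cancel_left]
    exact List.prefix_append _ _
  · rintro ⟨h, u, hu⟩
    refine ⟨⟨x.n - s.n, u⟩, ?_⟩
    apply M.ext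
    · rw [mul_n]
      show x.n = s.n + (x.n - s.n)
      omega
    · rw [mul_w]
      exact hu.symm

theorem cancel (a b c : M) (h : a * b = a * c) : b = c := by
  have h1 := congrArg M.n h
  have h2 := congrArg M.w h
  rw [mul_n, mul_n] at h1
  rw [mul_w, mul_w] at h2
  have h3 : b.n = c.n := by omega
  rw [h3] at h2
  exact M.ext h3 (List.append_cancel_left h2)

theorem inter_le (s t : M) (h : s.n ≤ t.n) :
    rI s ∩ rI t = ∅ ∨ ∃ r : M, rI s ∩ rI t = rI r := by
  set w' := s.w.map (f^[t.n - s.n]) with hw'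
  have key : ∀ x : M, x ∈ rI s ∩ rI t ↔
      t.n ≤ x.n ∧ w'.map (f^[x.n - t.n]) <+: x.w ∧ t.w.map (f^[x.n - t.n]) <+: x.w := by
    intro x
    rw [Set.mem_inter_iff, mem_rI, mem_rI]
    constructor
    · rintro ⟨⟨h1, h2⟩, h3, h4⟩
      refine ⟨h3, ?_, h4⟩
      rw [hw', List.map_map, ← Function.iterate_add]
      have : x.n - t.n + (t.n - s.n) = x.n - s.n := by omega
      rw [this]
      exact h2
    · rintro ⟨h3, h2, h4⟩
      refine ⟨⟨by omega, ?_⟩, h3, h4⟩
      rw [hw', List.map_map, ← Function.iterate_add] at h2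
      have : x.n - t.n + (t.n - s.n) = x.n - s.n := by omega
      rw [this] at h2
      exact h2
  have pm : ∀ (u v : List (Fin 3)) (g : Fin 3 → Fin 3), u <+: v → u.map g <+: v.map g :=
    fun u v g h => h.map g
  by_cases hA : w' <+: t.w
  · right
    refine ⟨t, ?_⟩
    ext x
    rw [key, mem_rI]
    exact ⟨fun ⟨h1, _, h3⟩ => ⟨h1, h3⟩, fun ⟨h1, h3⟩ => ⟨h1, (pm _ _ _ hA).trans h3, h3⟩⟩
  by_cases hB : t.w <+: w'
  · right
    refine ⟨⟨t.n, w'⟩, ?_⟩
    ext x
    rw [key, mem_rI]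
    exact ⟨fun ⟨h1, h2, _⟩ => ⟨h1, h2⟩, fun ⟨h1, h2⟩ => ⟨h1, h2, (pm _ _ _ hB).trans h2⟩⟩
  have hlt : ∀ x : M, x ∈ rI s ∩ rI t → t.n + 1 ≤ x.n := by
    intro x hx
    rw [key] at hx
    obtain ⟨h1, h2, h3⟩ := hx
    by_contra hcon
    have h4 : x.n - t.n = 0 := by omega
    rw [h4] at h2 h3
    simp only [Function.iterate_zero, List.map_id] at h2 h3
    rcases List.prefix_or_prefix_of_prefix h2 h3 with h5 | h5
    · exact hA h5
    · exact hB h5
  have key2 : ∀ x : M, x ∈ rI s ∩ rI t ↔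
      t.n + 1 ≤ x.n ∧ w'.map f <+: x.w ∧ t.w.map f <+: x.w := by
    intro x
    constructor
    · intro hx
      have h1 := hlt x hx
      rw [key] at hx
      obtain ⟨m, hm⟩ : ∃ m, x.n - t.n = m + 1 := ⟨x.n - t.n - 1, by omega⟩
      rw [hm, fit] at hx
      exact ⟨h1, hx.2⟩
    · rintro ⟨h1, h2⟩
      rw [key]
      obtain ⟨m, hm⟩ : ∃ m, x.n - t.n = m + 1 := ⟨x.n - t.n - 1, by omega⟩
      rw [hm, fit]
      exact ⟨by omega, h2⟩
  have idem : ∀ (u : List (Fin 3)) (k : ℕ), (u.map f).map (f^[k]) = u.map f := by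
    intro u k
    cases k with
    | zero => simp
    | succ k =>
      rw [fit, List.map_map]
      congr 1
      funext i
      exact ff i
  by_cases hC : w'.map f <+: t.w.map f
  · right
    refine ⟨⟨t.n + 1, t.w.map f⟩, ?_⟩
    ext x
    rw [key2, mem_rI]
    simp only [idem]
    exact ⟨fun ⟨h1, _, h3⟩ => ⟨h1, h3⟩, fun ⟨h1, h3⟩ => ⟨h1, hC.trans h3, h3⟩⟩
  by_cases hD : t.w.map f <+: w'.map f
  · right
    refine ⟨⟨t.n + 1, w'.map f⟩, ?_⟩
    ext x
    rw [key2, mem_rI]
    simp only [idem]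
    exact ⟨fun ⟨h1, h2, _⟩ => ⟨h1, h2⟩, fun ⟨h1, h2⟩ => ⟨h1, h2, hD.trans h2⟩⟩
  left
  rw [Set.eq_empty_iff_forall_notMem]
  intro x hx
  rw [key2] at hx
  obtain ⟨_, h2, h3⟩ := hx
  rcases List.prefix_or_prefix_of_prefix h2 h3 with h5 | h5
  · exact hC h5
  · exact hD h5

theorem lcm : IsRightLCM M := by
  refine ⟨cancel, fun s t => ?_⟩
  rcases le_total s.n t.n with h | h
  · exact inter_le s t h
  · rw [Set.inter_comm]
    exact inter_le t s h

theorem core_iff (a : M) : a ∈ core M ↔ a.w = [] := by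
  constructor
  · intro h
    by_contra hne
    obtain ⟨i, u, hu⟩ := List.exists_cons_of_ne_nil hne
    have hi : ∃ j : Fin 3, f j ≠ f i := by
      have : ∀ i : Fin 3, ∃ j : Fin 3, f j ≠ f i := by decide
      exact this i
    obtain ⟨j, hj⟩ := hi
    obtain ⟨x, hx1, hx2⟩ := h ⟨a.n, [j]⟩
    rw [mem_rI] at hx1 hx2
    obtain ⟨y, hy⟩ : ∃ y : List (Fin 3), y = x.w.map f := ⟨_, rfl⟩
    have h1 := hx1.2.map f
    have h2 := hx2.2.map f
    have e : ∀ (k : ℕ) (i : Fin 3), f (f^[k] i) = f i := by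
      intro k i
      rw [← Function.iterate_succ_apply' f k i, fit]
    rw [hu] at h1
    simp only [List.map_cons, List.map_nil, List.map_map, e] at h1 h2
    obtain ⟨c1, hc1⟩ := h1
    obtain ⟨c2, hc2⟩ := h2
    rw [← hc1] at hc2
    simp only [List.cons_append, List.cons.injEq] at hc2
    exact hj hc2.1
  · intro h s
    refine ⟨⟨a.n + s.n, s.w.map (f^[a.n])⟩, ?_, ?_⟩
    · rw [mem_rI, h]
      exact ⟨by simp, by simp⟩
    · rw [mem_rI]
      refine ⟨by simp, ?_⟩
      simp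

theorem unit_iff (a : M) (h : IsUnit a) : a.n = 0 := by
  obtain ⟨⟨a, b, h1, h2⟩, rfl⟩ := h
  have := congrArg M.n h1
  rw [mul_n] at this
  have h0 : (1 : M).n = 0 := rfl
  rw [h0] at this
  show a.n = 0
  omega

theorem unit_of (a : M) (h : a.n = 0) (h' : a.w = []) : IsUnit a := by
  have : a = 1 := M.ext h h'
  rw [this]
  exact isUnit_one

theorem irr (i : Fin 3) : CoreIrred (⟨0, [i]⟩ : M) := by
  refine ⟨?_, fun t a ha h => ?_⟩
  · rw [core_iff]
    simp
  · rw [core_iff] at ha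
    refine unit_of a ?_ ha
    have := congrArg M.n h
    rw [mul_n] at this
    have h0 : (⟨0, [i]⟩ : M).n = 0 := rfl
    omega

theorem not_irr : ¬ CoreIrred (⟨1, [0]⟩ : M) := by
  intro h
  have := h.2 ⟨0, [0]⟩ ⟨1, []⟩ (by rw [core_iff]) (by rfl)
  have := unit_iff _ this
  simp at this

theorem inter : rI (⟨0, [0]⟩ : M) ∩ rI (⟨0, [1]⟩ : M) = rI (⟨1, [0]⟩ : M) := by
  ext x
  rw [Set.mem_inter_iff, mem_rI, mem_rI, mem_rI]
  simp only [Nat.sub_zero, List.map_cons, List.map_nil]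
  rcases Nat.eq_zero_or_pos x.n with h0 | h0
  · rw [h0]
    simp only [Function.iterate_zero, id_eq]
    constructor
    · rintro ⟨⟨_, c1, h1⟩, _, c2, h2⟩
      rw [← h2] at h1
      simp at h1
    · rintro ⟨h1, _⟩
      omega
  · obtain ⟨m, hm⟩ : ∃ m, x.n = m + 1 := ⟨x.n - 1, by omega⟩
    rw [hm, fit]
    have e0 : f 0 = 0 := by decide
    have e1 : f 1 = 0 := by decide
    have e2 : ∀ k, f^[k] 0 = 0 := by
      intro k
      cases k with
      | zero => rfl
      | succ k => rw [fit, e0]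
    rw [e0, e1, e2]
    simp

theorem countable_M : Countable M := by
  have : Function.Injective (fun a : M => (a.n, a.w)) := by
    intro a b h
    have := Prod.mk.inj h
    exact M.ext this.1 this.2
  exact this.countable

/-- There is a countable right LCM monoid with core irreducible elements `s`, `t` and a right
LCM `r` of them that is not core irreducible. -/
theorem result : ∃ (S : Type) (_ : Monoid S), Countable S ∧ IsRightLCM S ∧
    ∃ s t r : S, CoreIrred s ∧ CoreIrred t ∧ rI s ∩ rI t = rI r ∧ ¬ CoreIrred r :=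
  ⟨M, inferInstance, countable_M, lcm, ⟨0, [0]⟩, ⟨0, [1]⟩, ⟨1, [0]⟩, irr 0, irr 1, inter,
    not_irr⟩

end Pool.Agent.Results.MP_4a71d8_al.NotClosed
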